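import Pool.Agent.R93.TotDom.Basic

set_option autoImplicit false

/-!
# Fractional total domatic number of claw-free graphs of minimum degree two

Every connected claw-free graph of order `n` and minimum degree at least two has
`FTD(G) ≥ 2 n / (n + 2)`, hence `FTD(G) ≥ 2 - o(1)`.

Proof: Hall's condition `|U| ≤ |N(U)|` holds, so there is a bijection `φ` with `v ~ φ v`. If the
inequality is strict for all proper nonempty `U`, then for every `v₀` there is a 2-colouring for
which all vertices but `v₀` see both colours; the `2 n` colour classes, each with `φ v₀` added,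
contain every vertex at most `n + 1` times. Otherwise `V` is the union of an independent set `A`
and `B = N(A)` of the same size `n / 2`, the inequality is strict inside `A` and inside `B`, and
there is such a colouring for every pair of one exceptional vertex in `A` and one in `B`.
-/

namespace Pool.Agent.Results.MP_7cc102_co.MinDegreeTwo

open Finset R93.TotDom

universe u

section
variable {V : Type u} [Fintype V] [DecidableEq V] {G : SimpleGraph V} [DecidableRel G.Adj]

/-- an independent set with at most as many neighbours as vertices dominates the graph -/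
lemma union_eq_univ (hconn : G.Connected) (hc : ClawFree G) (hd : ∀ v, 2 ≤ (nb G v).card)
    {I : Finset V} (hI : Indep G I) (hne : I.Nonempty) (hle : (Nb G I).card ≤ I.card) :
    I ∪ Nb G I = Finset.univ := by
  have two : ∀ y ∈ Nb G I, 2 ≤ (I.filter (fun i => G.Adj y i)).card := by
    intro y hy
    have h1 := sum_deg_le hc hI {y}
    have h2 : ∑ i ∈ I, 2 ≤ ∑ i ∈ I, ((nb G i \ {y}).card + if G.Adj y i then 1 else 0) := by
      apply Finset.sum_le_sum
      intro i hi
      have h3 := hd i
      by_cases h : G.Adj y i
      · have h5 : (nb G i).card ≤ (nb G i \ {y}).card + ({y} : Finset V).card := by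
          rw [← Nat.sub_le_iff_le_add]
          exact Finset.le_card_sdiff _ _
        rw [Finset.card_singleton] at h5
        rw [if_pos h]
        omega
      · have h5 : nb G i \ {y} = nb G i := by
          rw [Finset.sdiff_singleton_eq_erase]
          apply Finset.erase_eq_of_notMem
          intro h6
          exact h (mem_nb.mp h6).symm
        rw [h5, if_neg h]
        omega
    rw [Finset.sum_add_distrib, ← Finset.card_filter, Finset.sum_const, smul_eq_mul] at h2
    have h4 : (Nb G I \ {y}).card + 1 = (Nb G I).card := by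
      rw [Finset.card_sdiff_of_subset (Finset.singleton_subset_iff.mpr hy),
        Finset.card_singleton]
      have := Finset.card_pos.mpr ⟨y, hy⟩
      omega
    omega
  apply closed_eq_univ hconn (hne.mono Finset.subset_union_left)
  intro v hv w hvw
  rcases Finset.mem_union.mp hv with hv | hv
  · exact Finset.mem_union_right _ (mem_Nb.mpr ⟨v, hv, hvw⟩)
  · by_contra hw
    rw [Finset.mem_union, not_or] at hw
    obtain ⟨hwI, hwN⟩ := hw
    obtain ⟨a, ha, b, hb, hab⟩ := Finset.one_lt_card.mp (two v hv)
    rw [Finset.mem_filter] at ha hb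
    exact hc ⟨v, a, b, w, ha.2, hb.2, hvw, hab, fun h => hwI (h ▸ ha.1), fun h => hwI (h ▸ hb.1),
      hI a ha.1 b hb.1, fun h => hwN (mem_Nb.mpr ⟨a, ha.1, h⟩),
      fun h => hwN (mem_Nb.mpr ⟨b, hb.1, h⟩)⟩

lemma indep_card_le (hc : ClawFree G) (hd : ∀ v, 2 ≤ (nb G v).card)
    {I : Finset V} (hI : Indep G I) : I.card ≤ (Nb G I).card := by
  have h := sum_deg_le hc hI ∅
  have h2 : ∑ i ∈ I, 2 ≤ ∑ i ∈ I, (nb G i \ ∅).card :=
    Finset.sum_le_sum (fun i _ => by simpa using hd i)
  simp at h h2
  omega

lemma hall (hc : ClawFree G) (hd : ∀ v, 2 ≤ (nb G v).card) (U : Finset V) :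
    U.card ≤ (Nb G U).card := by
  have h1 := indep_card_le hc hd (iso_indep (G := G) U)
  have h2 := card_Nb_ge (G := G) U
  have h3 := iso_card_add (G := G) U
  omega

omit [DecidableRel G.Adj] in
/-- the family of total dominating sets -/
lemma fam [Nonempty V] (φ : V → V) (hφ : Function.Injective φ) (hN : ∀ v, G.Adj v (φ v))
    (m : ℕ) (hm : 0 < m) (P : Fin m → Finset V) (hP : ∀ i j, i ≠ j → Disjoint (P i) (P j))
    (hc : ∀ j, ∃ c : V → Bool, ∀ v, v ∉ P j → ∃ a b, G.Adj v a ∧ G.Adj v b ∧ c a ≠ c b) :
    (2 * m : ℝ) / (m + 1) ≤ FTD G := by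
  choose c hc using hc
  have : Nonempty (Fin m × Bool) := ⟨(⟨0, hm⟩, true)⟩
  have key := le_FTD_of_family (G := G) (ι := Fin m × Bool)
    (fun p => (Finset.univ.filter (fun v => c p.1 v = p.2)) ∪ (P p.1).image φ) ?_ (m + 1) ?_
  · rw [Fintype.card_prod, Fintype.card_fin, Fintype.card_bool] at key
    push_cast at key
    rw [mul_comm]
    exact key
  · rintro ⟨j, b⟩ v
    by_cases hv : v ∈ P j
    · exact ⟨φ v, Finset.mem_union_right _ (Finset.mem_image_of_mem _ hv), hN v⟩
    · obtain ⟨x, y, hx, hy, hxy⟩ := hc j v hv
      by_cases hxb : c j x = b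
      · exact ⟨x, Finset.mem_union_left _ (by simp [hxb]), hx⟩
      · refine ⟨y, Finset.mem_union_left _ ?_, hy⟩
        simp only [Finset.mem_filter, Finset.mem_univ, true_and]
        revert hxy hxb
        cases c j x <;> cases c j y <;> cases b <;> simp
  · intro v
    have h1 : (Finset.univ.filter (fun p : Fin m × Bool =>
        v ∈ (Finset.univ.filter (fun v => c p.1 v = p.2)) ∪ (P p.1).image φ)) ⊆
        (Finset.univ.image (fun j : Fin m => (j, c j v))) ∪
        ((Finset.univ.filter (fun j : Fin m => v ∈ (P j).image φ)).image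
          (fun j => (j, !c j v))) := by
      rintro ⟨j, b⟩ h
      rw [Finset.mem_filter, Finset.mem_union] at h
      by_cases hb : c j v = b
      · exact Finset.mem_union_left _ (Finset.mem_image.mpr ⟨j, Finset.mem_univ _, by rw [hb]⟩)
      · rcases h.2 with h2 | h2
        · exact absurd (Finset.mem_filter.mp h2).2 hb
        · refine Finset.mem_union_right _ (Finset.mem_image.mpr
            ⟨j, Finset.mem_filter.mpr ⟨Finset.mem_univ _, h2⟩, ?_⟩)
          revert hb
          cases c j v <;> cases b <;> simp
    have h2 : (Finset.univ.filter (fun j : Fin m => v ∈ (P j).image φ)).card ≤ 1 := by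
      rw [Finset.card_le_one]
      intro i hi j hj
      rw [Finset.mem_filter, Finset.mem_image] at hi hj
      obtain ⟨-, x, hx, hxv⟩ := hi
      obtain ⟨-, y, hy, hyv⟩ := hj
      have hxy : x = y := hφ (hxv.trans hyv.symm)
      by_contra hij
      exact Finset.disjoint_left.mp (hP i j hij) hx (hxy ▸ hy)
    have h3 := (Finset.card_le_card h1).trans ((Finset.card_union_le _ _).trans
      (Nat.add_le_add (Finset.card_image_le.trans (by simp : _ ≤ m))
        (Finset.card_image_le.trans h2)))
    refine le_trans (le_of_eq (congrArg Finset.card ?_)) h3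
    ext p
    simp only [Finset.mem_filter]

/-- colourings from the extension lemma -/
lemma colour (φ : V → V) (hφ : Function.Injective φ) (hN : ∀ v, G.Adj v (φ v)) (U0 : Finset V)
    (hT : ∀ U : Finset V, U.Nonempty → Disjoint U U0 → ∃ y ∈ Nb G U, y ∉ U.image φ) :
    ∃ c : V → Bool, ∀ v, v ∉ U0 → ∃ a b, G.Adj v a ∧ G.Adj v b ∧ c a ≠ c b := by
  obtain ⟨c, -, h⟩ := ext_coloring (G := G) φ hφ U0 (fun v _ => hN v) hT (fun _ => true)
  exact ⟨c, h⟩

theorem main (hconn : G.Connected) (hc : ClawFree G) (hd : ∀ v, 2 ≤ (nb G v).card) :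
    ∃ m : ℕ, 0 < m ∧ Fintype.card V ≤ 2 * m ∧ (2 * m : ℝ) / (m + 1) ≤ FTD G := by
  have hVne : Nonempty V := hconn.nonempty
  obtain ⟨φ, hφ, -, hN'⟩ := exists_bij (G := G) ∅ ∅ id (by simp) (by simp) (by
    intro U _
    simpa using hall hc hd U)
  have hN : ∀ v, G.Adj v (φ v) := fun v => hN' v (Finset.notMem_empty v)
  by_cases hS : ∀ U : Finset V, U.Nonempty → U ≠ Finset.univ → U.card < (Nb G U).card
  · refine ⟨Fintype.card V, Fintype.card_pos, by omega, ?_⟩
    let e : V ≃ Fin (Fintype.card V) := Fintype.equivFin V
    refine fam φ hφ hN (Fintype.card V) Fintype.card_pos (fun j => {e.symm j}) ?_ ?_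
    · intro i j hij
      rw [Finset.disjoint_singleton]
      exact fun h => hij (e.symm.injective h)
    · intro j
      apply colour φ hφ hN
      intro U hne hdis
      have hnu : U ≠ Finset.univ := by
        rintro rfl
        exact Finset.disjoint_left.mp hdis (Finset.mem_univ (e.symm j))
          (Finset.mem_singleton_self _)
      have h2 : (U.image φ).card < (Nb G U).card := by
        rw [Finset.card_image_of_injective _ hφ]
        exact hS U hne hnu
      obtain ⟨y, hy, hy'⟩ := Finset.exists_mem_notMem_of_card_lt_card h2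
      exact ⟨y, hy, hy'⟩
  · push Not at hS
    obtain ⟨U, hUne, hUu, hUle⟩ := hS
    have h1 := indep_card_le hc hd (iso_indep (G := G) U)
    have h2 := card_Nb_ge (G := G) U
    have h3 := iso_card_add (G := G) U
    set A := iso G U with hA
    have hAI : Indep G A := iso_indep U
    have hAne : A.Nonempty := by
      rw [Finset.nonempty_iff_ne_empty]
      intro hAe
      have h4 : U ⊆ Nb G U := by
        have := sdiff_iso_subset (G := G) U
        rwa [← hA, hAe, Finset.sdiff_empty] at this
      have h5 : U = Nb G U := Finset.eq_of_subset_of_card_le h4 hUle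
      apply hUu
      apply closed_eq_univ hconn hUne
      intro v hv w hvw
      rw [h5]
      exact mem_Nb.mpr ⟨v, hv, hvw⟩
    have hcard : (Nb G A).card = A.card := by omega
    set B := Nb G A with hB
    have hAB : A ∪ B = Finset.univ := union_eq_univ hconn hc hd hAI hAne hcard.le
    have hdisj : Disjoint A B := by
      rw [Finset.disjoint_left]
      intro x hx hx'
      obtain ⟨y, hy, hyx⟩ := mem_Nb.mp hx'
      exact hAI y hy x hx hyx
    have hmemAB : ∀ x, x ∈ A ∨ x ∈ B := by
      intro x
      have : x ∈ A ∪ B := hAB ▸ Finset.mem_univ x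
      exact Finset.mem_union.mp this
    have hnA : ∀ x ∈ A, ∀ y, G.Adj x y → y ∈ B := fun x hx y h => mem_Nb.mpr ⟨x, hx, h⟩
    have hsub : ∀ W : Finset V, W ⊆ A → W.Nonempty → (Nb G W).card ≤ W.card → W = A := by
      intro W hW hWne hWle
      have hWI : Indep G W := fun v hv w hw => hAI v (hW hv) w (hW hw)
      have h4 := union_eq_univ hconn hc hd hWI hWne hWle
      apply Finset.Subset.antisymm hW
      intro x hx
      have h5 : x ∈ W ∪ Nb G W := h4 ▸ Finset.mem_univ x
      rcases Finset.mem_union.mp h5 with h5 | h5
      · exact h5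
      · obtain ⟨y, hy, hyx⟩ := mem_Nb.mp h5
        exact absurd hyx (hAI y (hW hy) x hx)
    -- `φ` maps `A` onto `B` and `B` onto `A`
    have hφA : A.image φ = B := by
      apply Finset.eq_of_subset_of_card_le
      · intro y hy
        obtain ⟨x, hx, rfl⟩ := Finset.mem_image.mp hy
        exact hnA x hx _ (hN x)
      · rw [Finset.card_image_of_injective _ hφ]
        exact hcard.le
    have hφB : ∀ x ∈ B, φ x ∈ A := by
      intro x hx
      rcases hmemAB (φ x) with h | h
      · exact h
      · exfalso
        rw [← hφA] at h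
        obtain ⟨y, hy, hyx⟩ := Finset.mem_image.mp h
        exact Finset.disjoint_left.mp hdisj hy (hφ hyx ▸ hx)
    have hAcard : A.card + B.card = Fintype.card V := by
      rw [← Finset.card_union_of_disjoint hdisj, hAB, Finset.card_univ]
    have hApos : 0 < A.card := Finset.card_pos.mpr hAne
    refine ⟨A.card, hApos, by omega, ?_⟩
    let eA : A ≃ Fin A.card := A.equivFin
    let eB : B ≃ Fin A.card := B.equivFinOfCardEq hcard
    refine fam φ hφ hN A.card hApos (fun j => {(eA.symm j : V), (eB.symm j : V)}) ?_ ?_
    · intro i j hij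
      rw [Finset.disjoint_left]
      intro x hx hx'
      rw [Finset.mem_insert, Finset.mem_singleton] at hx hx'
      rcases hx with rfl | rfl <;> rcases hx' with h | h
      · exact hij (eA.symm.injective (Subtype.ext h))
      · exact Finset.disjoint_left.mp hdisj (eA.symm i).2 (h ▸ (eB.symm j).2)
      · exact Finset.disjoint_left.mp hdisj (eA.symm j).2 (h ▸ (eB.symm i).2)
      · exact hij (eB.symm.injective (Subtype.ext h))
    · intro j
      apply colour φ hφ hN
      intro W hWne hWdis
      have hWA : (eA.symm j : V) ∉ W := fun h => Finset.disjoint_left.mp hWdis h (by simp)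
      have hWB : (eB.symm j : V) ∉ W := fun h => Finset.disjoint_left.mp hWdis h (by simp)
      by_cases hWAne : (W ∩ A).Nonempty
      · -- a vertex of `B`
        have h4 : (W ∩ A).card < (Nb G (W ∩ A)).card := by
          by_contra hcon
          have h5 := hsub (W ∩ A) Finset.inter_subset_right hWAne (by omega)
          have h6 : (eA.symm j : V) ∈ W ∩ A := by rw [h5]; exact (eA.symm j).2
          exact hWA (Finset.mem_inter.mp h6).1
        have h7 : ((W ∩ A).image φ).card < (Nb G (W ∩ A)).card := by
          rw [Finset.card_image_of_injective _ hφ]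
          exact h4
        obtain ⟨y, hy, hy'⟩ := Finset.exists_mem_notMem_of_card_lt_card h7
        refine ⟨y, Nb_mono Finset.inter_subset_left hy, fun h => ?_⟩
        obtain ⟨z, hz, rfl⟩ := Finset.mem_image.mp h
        rcases hmemAB z with hzA | hzB
        · exact hy' (Finset.mem_image_of_mem _ (Finset.mem_inter.mpr ⟨hz, hzA⟩))
        · have h8 : φ z ∈ B := Nb_mono Finset.inter_subset_right hy
          exact Finset.disjoint_left.mp hdisj (hφB z hzB) h8
      · -- `W ⊆ B`
        rw [Finset.not_nonempty_iff_eq_empty] at hWAne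
        have hWsub : W ⊆ B := by
          intro x hx
          rcases hmemAB x with h | h
          · exfalso
            have : x ∈ W ∩ A := Finset.mem_inter.mpr ⟨hx, h⟩
            rw [hWAne] at this
            exact Finset.notMem_empty x this
          · exact h
        by_contra hcon
        push Not at hcon
        -- all neighbours of `W` in `A` are in `φ(W)`
        set A2 := A \ W.image φ with hA2
        have hWφ : W.image φ ⊆ A := by
          intro x hx
          obtain ⟨z, hz, rfl⟩ := Finset.mem_image.mp hx
          exact hφB z (hWsub hz)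
        have hA2N : Nb G A2 ⊆ B \ W := by
          intro y hy
          obtain ⟨x, hx, hxy⟩ := mem_Nb.mp hy
          rw [hA2, Finset.mem_sdiff] at hx
          refine Finset.mem_sdiff.mpr ⟨hnA x hx.1 y hxy, fun hyW => hx.2 ?_⟩
          exact hcon x (mem_Nb.mpr ⟨y, hyW, hxy.symm⟩)
        have h4 : (B \ W).card + W.card = B.card := by
          rw [Finset.card_sdiff_of_subset hWsub]
          have := Finset.card_le_card hWsub
          omega
        have h5 : A2.card + W.card = A.card := by
          rw [hA2, Finset.card_sdiff_of_subset hWφ, Finset.card_image_of_injective _ hφ]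
          have := Finset.card_le_card hWφ
          rw [Finset.card_image_of_injective _ hφ] at this
          omega
        have h6 : 0 < (B \ W).card :=
          Finset.card_pos.mpr ⟨(eB.symm j : V), Finset.mem_sdiff.mpr ⟨(eB.symm j).2, hWB⟩⟩
        have h7 := Finset.card_le_card hA2N
        have h8 := hsub A2 Finset.sdiff_subset (Finset.card_pos.mp (by omega)) (by omega)
        have h9 := Finset.card_pos.mpr hWne
        rw [h8] at h5
        omega

end

theorem bound (V : Type u) [Fintype V] (G : SimpleGraph V) (hconn : G.Connected)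
    (hc : ClawFree G) (hd : ∀ v, 2 ≤ (G.neighborSet v).ncard) :
    (2 * Fintype.card V : ℝ) / (Fintype.card V + 2) ≤ FTD G := by
  classical
  have hd' : ∀ v, 2 ≤ (nb G v).card := by
    intro v
    have h2 : G.neighborSet v = ((nb G v : Finset V) : Set V) := by
      ext w; simp
    have h3 := hd v
    rw [h2, Set.ncard_coe_finset] at h3
    exact h3
  obtain ⟨m, hm, hn, h⟩ := main hconn hc hd'
  refine le_trans ?_ h
  have h1 : (Fintype.card V : ℝ) ≤ 2 * m := by exact_mod_cast hn
  have h2 : (0 : ℝ) ≤ Fintype.card V := by positivity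
  have h3 : (0 : ℝ) < m := by exact_mod_cast hm
  rw [div_le_div_iff₀ (by positivity) (by positivity)]
  nlinarith

/-- Every connected claw-free graph of order `n` and minimum degree at least two has
`FTD(G) ≥ 2 n / (n + 2)`; in particular, for every `ε > 0` all such graphs of sufficiently large
order satisfy `FTD(G) ≥ 2 - ε`. -/
theorem result :
    (∀ (V : Type u) [Fintype V] (G : SimpleGraph V), G.Connected → ClawFree G →
      (∀ v, 2 ≤ (G.neighborSet v).ncard) →
        (2 * Fintype.card V : ℝ) / (Fintype.card V + 2) ≤ FTD G) ∧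
    (∀ ε : ℝ, 0 < ε → ∃ N : ℕ, ∀ (V : Type u) [Fintype V] (G : SimpleGraph V),
      G.Connected → ClawFree G → (∀ v, 2 ≤ (G.neighborSet v).ncard) →
        N ≤ Fintype.card V → 2 - ε ≤ FTD G) := by
  refine ⟨fun V _ G h1 h2 h3 => bound V G h1 h2 h3, ?_⟩
  intro ε hε
  obtain ⟨N, hN⟩ := exists_nat_gt (4 / ε)
  refine ⟨N, fun V _ G h1 h2 h3 h4 => le_trans ?_ (bound V G h1 h2 h3)⟩
  have h5 : (N : ℝ) ≤ Fintype.card V := by exact_mod_cast h4
  have h6 : (0 : ℝ) < Fintype.card V + 2 := by positivity
  rw [div_lt_iff₀ hε] at hN
  rw [le_div_iff₀ h6]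
  nlinarith

end Pool.Agent.Results.MP_7cc102_co.MinDegreeTwo
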